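import Pool.Agent.R211.CE.Crit3

/-!
Regularity of periodic solutions of the Navier-Stokes equations whose vorticity direction, where the
vorticity is large, lies in cones at a coarse scale and varies little at a fine scale, which may
shrink like the parabolic scale at the final time. The admissible variation is governed by the
circulation at the fine scale, and the conditions may fail at a set of times which is thin at the
final time.
-/

open MeasureTheory Set
open H459R3.NS

namespace Pool.Agent.Results.MP_6bf1e5_an.ShrinkingCoherenceScales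

/-- The Euclidean length of a vector of `ℝ³`. -/
noncomputable def len (a : V) : ℝ := Real.sqrt (∑ i, a i ^ 2)

/-- The Euclidean ball. -/
def ball (x : V) (r : ℝ) : Set V := {y | len (y - x) < r}

/-- The curl of a vector field. -/
noncomputable def curl (v : V → V) (x : V) : V :=
  ![pd 1 (fun y => v y 2) x - pd 2 (fun y => v y 1) x,
    pd 2 (fun y => v y 0) x - pd 0 (fun y => v y 2) x,
    pd 0 (fun y => v y 1) x - pd 1 (fun y => v y 0) x]

/-- In every ball of radius `R` the values of `W` of length more than `K` lie in the cone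
`σ |W| ≤ e · W` around a unit vector `e` (which depends on the ball). -/
def InCones (W : V → V) (K σ R : ℝ) : Prop := ∀ x : V, ∃ e : V, len e = 1 ∧
  ∀ y : V, len (y - x) < R → K < len (W y) → σ * len (W y) ≤ ∑ i, e i * W y i

/-- The strength of `W` near `x` at the scale `r`, which has the dimension of a circulation:
`r⁻¹ ∫_{|y - x| < r} |W(y)| dy + K r²`. -/
noncomputable def circ (W : V → V) (K r : ℝ) (x : V) : ℝ :=
  (∫ y in ball x r, len (W y)) / r + K * r ^ 2

/-- The function `s / (1 + log (1 + 1 / s))`. -/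
noncomputable def small (s : ℝ) : ℝ := s / (1 + Real.log (1 + 1 / s))

/-- For all `x`, `y` of distance at most `r` with `|W(x)| > K` and `|W(y)| > K` the sine of the angle
between `W(x)` and `W(y)` is at most `c small (ν / circ(x))`. -/
def Coherent (W : V → V) (ν K c r : ℝ) : Prop := ∀ x y : V, K < len (W x) → K < len (W y) →
  len (x - y) ≤ r →
  len (crossProduct (W x) (W y)) ≤ c * small (ν / circ W K r x) * (len (W x) * len (W y))

/-- `√(E / R) + K R²`. -/
noncomputable def size (E K R : ℝ) : ℝ := Real.sqrt (E / R) + K * R ^ 2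

/-- `Γ (1 + log (1 + L / Γ)) / r² + L / R² + (K R)² / ν`. -/
noncomputable def rate (ν K R r Γ L : ℝ) : ℝ :=
  Γ * (1 + Real.log (1 + L / Γ)) / r ^ 2 + L / R ^ 2 + (K * R) ^ 2 / ν

theorem ball_eq {x : V} {r : ℝ} (hr : 0 < r) : ball x r = Pool.Agent.R210.eb x r := by
  ext y
  have e1 : len (y - x) = Pool.Agent.R210.en (y - x) := rfl
  show len (y - x) < r ↔ Pool.Agent.R210.rsq (y - x) < r ^ 2
  rw [e1, ← Pool.Agent.R210.en_sq]
  constructor
  · intro h
    exact pow_lt_pow_left₀ h (Pool.Agent.R210.en_nonneg _) two_ne_zero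
  · intro h
    exact lt_of_pow_lt_pow_left₀ 2 hr.le h

theorem circ_eq {W : V → V} {K r : ℝ} (hr : 0 < r) (x : V) :
    circ W K r x = Pool.Agent.R211.CE.circ W K r x := by
  unfold circ Pool.Agent.R211.CE.circ
  rw [ball_eq hr]
  rfl

/-- For all `σ > 0` and `θ > 0` there are constants `c > 0` and `C` such that the following holds.
Let `(u, p)` be a smooth `1`-periodic solution of the Navier-Stokes equations on `[0, T)` with
viscosity `ν > 0` and without force, `W` its vorticity, `E` the integral of `|u(0)|²` over the period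
cell and `L = √(E / R) + K R²`.

* If at the time `t` every ball of radius `R ≤ 1` has a unit vector `e` with `σ |W| ≤ e · W` at its
  points with `|W| > K`, then the integral of `|W|` over every ball of radius `τ ≤ R / 2` is at most
  `C L τ`.
* Let `Z` be a measurable set of times with `∫_Z (T - t) ^ (-2 - θ) dt < ∞`. Suppose that for almost
  every `t` in `(0, T)` outside `Z` there are `K > 0`, `0 < r ≤ R ≤ 1` and `Γ` such that the
  condition on the cones of the first part holds, `circ ≤ Γ` everywhere, `|W(x) × W(y)| ≤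
  c small (ν / circ(x)) |W(x)| |W(y)|` if `|x - y| ≤ r` and `|W| > K` at `x` and `y`, and
  `Γ (1 + log (1 + L / Γ)) / r² + L / R² + (K R)² / ν ≤ g(t)`, where `g ≥ 0` and
  `∫₀ᵗ g ≤ B + c log (1 / (T - t))` for all `t` in `(0, T)`. Then the enstrophy and the velocity are
  bounded on `[0, T)`. -/
theorem result : ∀ σ θ : ℝ, 0 < σ → 0 < θ → ∃ c C : ℝ, 0 < c ∧
    ∀ (ν T : ℝ) (u : ℝ → V → V) (p : ℝ → V → ℝ), 0 < ν → IsSol ν T u p →
    (∀ t ∈ Ico 0 T, ∀ K R : ℝ, 0 < K → 0 < R → R ≤ 1 → InCones (curl (u t)) K σ R →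
      ∀ (x : V) (τ : ℝ), 0 < τ → τ ≤ R / 2 →
        ∫ y in ball x τ, len (curl (u t) y) ≤ C * size (energy (u 0)) K R * τ) ∧
    ∀ (B : ℝ) (g : ℝ → ℝ) (Z : Set ℝ), MeasurableSet Z →
    IntegrableOn (fun t => (T - t) ^ (-(2 + θ))) (Z ∩ Ioo 0 T) →
    (∀ t ∈ Ioo 0 T, 0 ≤ g t) → (∀ t ∈ Ioo 0 T, IntervalIntegrable g volume 0 t) →
    (∀ t ∈ Ioo 0 T, ∫ s in (0 : ℝ)..t, g s ≤ B + c * Real.log (1 / (T - t))) →
    (∀ᵐ t ∂volume.restrict (Ioo 0 T), t ∉ Z → ∃ K R r Γ : ℝ, 0 < K ∧ 0 < r ∧ r ≤ R ∧ R ≤ 1 ∧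
      rate ν K R r Γ (size (energy (u 0)) K R) ≤ g t ∧ InCones (curl (u t)) K σ R ∧
      (∀ x, circ (curl (u t)) K r x ≤ Γ) ∧ Coherent (curl (u t)) ν K c r) →
    (∃ A, ∀ t ∈ Ico 0 T, enstrophy (u t) ≤ A) ∧ ∃ M, ∀ t ∈ Ico 0 T, ∀ x i, |u t x i| ≤ M := by
  intro σ θ hσ hθ
  have hσ' : 0 < min σ 1 := lt_min hσ one_pos
  have h0 := Pool.Agent.R211.CE.ds_pos hσ'
  have h1 := Pool.Agent.R211.CE.D3_pos hσ'
  have hε : 0 < min (1 / 4) (θ / 2) := lt_min (by norm_num) (by positivity)
  refine ⟨min (Pool.Agent.R211.CE.ds (min σ 1))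
    (min (1 / 4) (θ / 2) / Pool.Agent.R211.CE.D3 (min σ 1)),
    Pool.Agent.R211.CE.CL (min σ 1), lt_min h0 (by positivity), fun ν T u p hν h => ⟨?_, ?_⟩⟩
  · intro t ht K R hK hR hR1 hc x τ hτ hτR
    rw [ball_eq hτ]
    exact Pool.Agent.R211.CE.mor_en (fun i => h.sp ht i) hK.le hR hR1 hσ' (min_le_right _ _)
      (h.energy_le hν ht) (Pool.Agent.R211.CE.cone_min hc) hτ hτR x
  · intro B g Z hZ hZi hg0 hgi hgB hosc
    refine Pool.Agent.R211.CE.crit_en3 (B := B) (g := g)
      (c := min (Pool.Agent.R211.CE.ds (min σ 1))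
        (min (1 / 4) (θ / 2) / Pool.Agent.R211.CE.D3 (min σ 1)))
      (ε := min (1 / 4) (θ / 2)) (θ := θ) hσ' (min_le_right _ _) h hν
      (lt_min h0 (by positivity)).le (min_le_left _ _) ?_ hε (min_le_left _ _)
      (by linarith [min_le_right (1 / 4) (θ / 2)]) hg0 hgi (fun t ht => ?_) hZ hZi ?_
    · calc Pool.Agent.R211.CE.D3 (min σ 1) * min (Pool.Agent.R211.CE.ds (min σ 1))
            (min (1 / 4) (θ / 2) / Pool.Agent.R211.CE.D3 (min σ 1))
          ≤ Pool.Agent.R211.CE.D3 (min σ 1)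
            * (min (1 / 4) (θ / 2) / Pool.Agent.R211.CE.D3 (min σ 1)) :=
            mul_le_mul_of_nonneg_left (min_le_right _ _) h1.le
        _ = min (1 / 4) (θ / 2) := by field_simp
    · refine (hgB t ht).trans (le_of_eq ?_)
      have e1 : Real.log (1 / (T - t)) = -Real.log (T - t) := by rw [one_div, Real.log_inv]
      rw [e1]
      ring
    · filter_upwards [hosc] with t ht
      by_cases htZ : t ∈ Z
      · exact Or.inl htZ
      refine Or.inr ?_
      obtain ⟨K, R, r, Γ, hK, hr, hrR, hR1, hg, hc, hΓ, hs⟩ := ht htZ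
      refine ⟨K, R, r, Γ, hK, hr, hrR, hR1, hg, Pool.Agent.R211.CE.cone_min hc,
        fun x => ?_, fun x y hx hy hxy => ?_⟩
      · have := hΓ x
        rwa [circ_eq hr] at this
      · have := hs x y hx hy hxy
        rwa [circ_eq hr] at this

end Pool.Agent.Results.MP_6bf1e5_an.ShrinkingCoherenceScales
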