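import Pool.Agent.R210.V1

/-!
Regularity of periodic solutions of the Navier-Stokes equations whose vorticity direction is
Hoelder continuous with an arbitrary positive exponent.
-/

open MeasureTheory Set
open H459R3.NS

namespace Pool.Agent.Results.MP_6bf1e5_an.VorticityDirectionHoelder

/-- The Euclidean length of a vector of `ℝ³`. -/
noncomputable def len (a : V) : ℝ := Real.sqrt (∑ i, a i ^ 2)

/-- The curl of a vector field. -/
noncomputable def curl (v : V → V) (x : V) : V :=
  ![pd 1 (fun y => v y 2) x - pd 2 (fun y => v y 1) x,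
    pd 2 (fun y => v y 0) x - pd 0 (fun y => v y 2) x,
    pd 0 (fun y => v y 1) x - pd 1 (fun y => v y 0) x]

/-- The direction `W / |W|` is Hoelder continuous on the set `{|W| > K}`: for all `x, y` in this
set, `|W(x) / |W(x)| - W(y) / |W(y)|| ≤ C |x - y| ^ β` (the denominators are cleared). -/
def DirHoelder (W : V → V) (K C β : ℝ) : Prop := ∀ x y : V, K < len (W x) → K < len (W y) →
  len (len (W y) • W x - len (W x) • W y) ≤ C * len (x - y) ^ β * (len (W x) * len (W y))

/-- The sine of the angle between `W(x)` and `W(y)` is at most `C |x - y| ^ β` for all `x, y` in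
the set `{|W| > K}` (nearly antiparallel vectors are allowed). -/
def SineHoelder (W : V → V) (K C β : ℝ) : Prop := ∀ x y : V, K < len (W x) → K < len (W y) →
  len (crossProduct (W x) (W y)) ≤ C * len (x - y) ^ β * (len (W x) * len (W y))

/-- Let `(u, p)` be a smooth `1`-periodic solution of the Navier-Stokes equations on `[0, T)` with
viscosity `ν > 0` and without force, and let `W` be its vorticity, `ξ = W / |W|`. Suppose that

* `0 < β ≤ 1`, the function `c` is in `Lᵃ(0, T)` with `a = (1 + 2 β) / β ^ 2`, the function `d` is in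
  `Lᵇ(0, T)` with `b = 2 (1 + β) / β ^ 2`, and for almost every `t` either
  `|ξ(x) - ξ(y)| ≤ c(t) |x - y| ^ β` for all `x, y` at which `|W| > K`, or the sine of the angle
  between `W(x)` and `W(y)` is at most `d(t) |x - y| ^ β` for all `x, y` at which `W` does not vanish;
  or
* `1/3 ≤ β < 1`, the function `c` is in `Lᵃ(0, T)` with `a = 6 / (3 β - 1)`, and for almost every `t`
  the sine of the angle between `W(x)` and `W(y)` is at most `c(t) |x - y| ^ β` for all `x, y` at
  which `|W| > K`.

Then the enstrophy and the velocity are bounded on `[0, T)`. -/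
theorem result {ν T : ℝ} {u : ℝ → V → V} {p : ℝ → V → ℝ} (h : IsSol ν T u p) (hν : 0 < ν)
    {β K : ℝ} {c d : ℝ → ℝ}
    (hdir : (0 < β ∧ β ≤ 1 ∧
        MemLp c (ENNReal.ofReal ((1 + 2 * β) / β ^ 2)) (volume.restrict (Ioo 0 T)) ∧
        MemLp d (ENNReal.ofReal (2 * (1 + β) / β ^ 2)) (volume.restrict (Ioo 0 T)) ∧
        ∀ᵐ t ∂volume.restrict (Ioo 0 T),
          DirHoelder (curl (u t)) K (c t) β ∨ SineHoelder (curl (u t)) 0 (d t) β) ∨
      (1 / 3 ≤ β ∧ β < 1 ∧
        MemLp c (6 / ENNReal.ofReal (3 * β - 1)) (volume.restrict (Ioo 0 T)) ∧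
        ∀ᵐ t ∂volume.restrict (Ioo 0 T), SineHoelder (curl (u t)) K (c t) β)) :
    (∃ A, ∀ t ∈ Ico 0 T, enstrophy (u t) ≤ A) ∧ ∃ M, ∀ t ∈ Ico 0 T, ∀ x i, |u t x i| ≤ M := by
  rcases hdir with ⟨hβ0, hβ1, hc, hd, hae⟩ | ⟨hβ0, hβ1, hc, hd⟩
  · refine Pool.Agent.R210.criterion3 h hν (K := K) hβ0 hβ1 hc hd ?_
    filter_upwards [hae] with t ht
    rcases ht with ht | ht
    · exact Or.inr ht
    · refine Or.inl fun x y => ?_
      have h0 : ∀ z : V, 0 ≤ len z := fun z => Real.sqrt_nonneg _
      rcases (h0 (curl (u t) x)).eq_or_lt with hx | hx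
      · have hz : curl (u t) x = 0 := by
          have h1 : ∑ i, curl (u t) x i ^ 2 = 0 := by
            have h2 := Real.sqrt_eq_zero'.1 hx.symm
            exact le_antisymm h2 (Finset.sum_nonneg fun i _ => sq_nonneg _)
          funext i
          have h3 := (Finset.sum_eq_zero_iff_of_nonneg fun i _ => sq_nonneg _).1 h1 i
            (Finset.mem_univ i)
          simpa using h3
        have hz' : Pool.Agent.R210.cu (u t) x = 0 := hz
        have h4 : Pool.Agent.R210.en (0 : V) = 0 := by
          simp [Pool.Agent.R210.en, Pool.Agent.R210.rsq]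
        rw [hz']
        simp only [map_zero, LinearMap.zero_apply, h4, zero_mul, mul_zero, le_refl]
      · rcases (h0 (curl (u t) y)).eq_or_lt with hy | hy
        · have hz : curl (u t) y = 0 := by
            have h1 : ∑ i, curl (u t) y i ^ 2 = 0 := by
              have h2 := Real.sqrt_eq_zero'.1 hy.symm
              exact le_antisymm h2 (Finset.sum_nonneg fun i _ => sq_nonneg _)
            funext i
            have h3 := (Finset.sum_eq_zero_iff_of_nonneg fun i _ => sq_nonneg _).1 h1 i
              (Finset.mem_univ i)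
            simpa using h3
          have hz' : Pool.Agent.R210.cu (u t) y = 0 := hz
          have h4 : Pool.Agent.R210.en (0 : V) = 0 := by
            simp [Pool.Agent.R210.en, Pool.Agent.R210.rsq]
          rw [hz']
          simp only [map_zero, h4, mul_zero, le_refl]
        · exact ht x y hx hy
  · exact Pool.Agent.R210.criterion h hν hβ0 hβ1 hc hd

end Pool.Agent.Results.MP_6bf1e5_an.VorticityDirectionHoelder
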